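import Mathlib
import Pool.Agent.V11221.Dia

/-!
MP_84aa88_gt, Q1: disproved.  There is a monotonic, `V₁`-preserving symmetrization
`𝒦² → 𝒦²_{o}` which fixes all `o`-symmetric sets and maps some segment to a set that is not a
segment: `◇K = t_K · M(conv(K ∪ {o}))` with `t_K = V₁(K) / V₁(conv(K ∪ {o}))`.
-/

namespace Pool.Agent.Results.MP_84aa88_gt.NotCanonical

open Pointwise
open Pool.Agent.V11221.SpherCyl (E)
open Pool.Agent.V11221.Supp
open Pool.Agent.V11221.Dia

/-- `𝒦²`: nonempty compact convex subsets of the Euclidean plane -/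
def K2 : Set (Set (E 2)) := {K | K.Nonempty ∧ IsCompact K ∧ Convex ℝ K}

/-- a symmetrization `𝒦² → 𝒦²_{o}` -/
abbrev Symmetrization := {K : Set (E 2) // K ∈ K2} → {K : Set (E 2) // K ∈ K2 ∧ -K = K}

/-- the unit vector `(cos θ, sin θ)` -/
noncomputable def dir (θ : ℝ) : E 2 := !₂[Real.cos θ, Real.sin θ]

/-- First intrinsic volume (half the perimeter), by Cauchy's formula:
`V₁(K) = ½ ∫₀^{2π} h_K(cos θ, sin θ) dθ`, `h_K` the support function. -/
noncomputable def V1 (K : Set (E 2)) : ℝ :=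
  (1 / 2) * ∫ θ in (0 : ℝ)..(2 * Real.pi), h K (dir θ)

lemma dir_cont : Continuous dir := by
  unfold dir
  fun_prop

lemma dir_periodic : Function.Periodic dir (2 * Real.pi) := by
  intro θ
  unfold dir
  rw [Real.cos_add_two_pi, Real.sin_add_two_pi]

lemma dir_add_pi (θ : ℝ) : dir (θ + Real.pi) = -dir θ := by
  unfold dir
  rw [Real.cos_add_pi, Real.sin_add_pi]
  ext i
  fin_cases i <;> simp

lemma exists_dir (u : E 2) (hu : u ≠ 0) : ∃ θ ∈ Set.Icc (0 : ℝ) (2 * Real.pi), u = ‖u‖ • dir θ := by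
  have hn : 0 < ‖u‖ := norm_pos_iff.2 hu
  have hsq : (u 0 / ‖u‖) ^ 2 + (u 1 / ‖u‖) ^ 2 = 1 := by
    have : ‖u‖ ^ 2 = u 0 ^ 2 + u 1 ^ 2 := by
      rw [EuclideanSpace.norm_sq_eq]; simp
    field_simp
    linarith
  set z : ℂ := ⟨u 0 / ‖u‖, u 1 / ‖u‖⟩ with hz
  have hzn : ‖z‖ = 1 := by
    have : ‖z‖ ^ 2 = 1 := by
      rw [Complex.sq_norm, Complex.normSq_apply, hz]
      simp only
      nlinarith
    nlinarith [norm_nonneg z]
  have hz0 : z ≠ 0 := by
    intro h0; rw [h0] at hzn; simp at hzn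
  have hc : Real.cos z.arg = u 0 / ‖u‖ := by
    rw [Complex.cos_arg hz0, hzn]; simp [hz]
  have hs : Real.sin z.arg = u 1 / ‖u‖ := by
    rw [Complex.sin_arg, hzn]; simp [hz]
  have hdir : u = ‖u‖ • dir z.arg := by
    ext i
    fin_cases i
    · simp only [dir, hc, hs, Fin.zero_eta, PiLp.smul_apply, smul_eq_mul]
      simp
      field_simp
    · simp only [dir, hc, hs, Fin.mk_one, PiLp.smul_apply, smul_eq_mul]
      simp
      field_simp
  obtain ⟨θ, hθ, he⟩ := dir_periodic.exists_mem_Ico₀ Real.two_pi_pos z.arg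
  refine ⟨θ, Set.Ico_subset_Icc_self hθ, ?_⟩
  rw [← he]
  exact hdir

/-- `Λ(f) = ∫₀^{2π} f(cos θ, sin θ) dθ`. -/
noncomputable def planeFnl : Fnl 2 where
  L f := ∫ θ in (0 : ℝ)..(2 * Real.pi), f (dir θ)
  add f g hf hg := intervalIntegral.integral_add
    ((hf.comp dir_cont).intervalIntegrable _ _) ((hg.comp dir_cont).intervalIntegrable _ _)
  smul c f hf := intervalIntegral.integral_const_mul _ _
  mono f g hf hg hfg := intervalIntegral.integral_mono Real.two_pi_pos.le
    ((hf.comp dir_cont).intervalIntegrable _ _) ((hg.comp dir_cont).intervalIntegrable _ _)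
    (fun θ => hfg _)
  neg f hf := by
    have hp : Function.Periodic (fun θ => f (dir θ)) (2 * Real.pi) := by
      intro θ
      simp only
      rw [dir_periodic θ]
    have h1 := hp.intervalIntegral_add_eq Real.pi 0
    have h2 : ∫ θ in (0 : ℝ)..(2 * Real.pi), f (dir (θ + Real.pi)) =
        ∫ θ in (0 + Real.pi)..(2 * Real.pi + Real.pi), f (dir θ) :=
      intervalIntegral.integral_comp_add_right (fun θ => f (dir θ)) Real.pi
    simp only [dir_add_pi] at h2
    rw [h2]
    rw [zero_add, add_comm Real.pi] at h1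
    rw [zero_add, h1]
  pos f hf h0 hh := by
    rintro ⟨u, hu⟩
    have hu0 : u ≠ 0 := by
      rintro rfl
      have := hh 2 0 (by norm_num)
      rw [smul_zero] at this
      linarith
    obtain ⟨θ, hθ, he⟩ := exists_dir u hu0
    have hn : 0 < ‖u‖ := norm_pos_iff.2 hu0
    have hpos : 0 < f (dir θ) := by
      rw [he, hh _ _ hn] at hu
      exact (mul_pos_iff_of_pos_left hn).1 hu
    exact intervalIntegral.integral_pos Real.two_pi_pos (hf.comp dir_cont).continuousOn
      (fun x _ => h0 _) ⟨θ, hθ, hpos⟩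

/-- the symmetrization -/
noncomputable def S : Symmetrization := fun K =>
  ⟨dia planeFnl K.1, ⟨(NC_dia _ ⟨K.2.1, K.2.2.1⟩).1, (NC_dia _ ⟨K.2.1, K.2.2.1⟩).2,
    convex_dia _ _⟩, neg_dia _ _⟩

noncomputable def va : E 2 := !₂[1, 1]
noncomputable def vb : E 2 := !₂[1, -1]

lemma va_ne_vb : va ≠ vb := by
  intro h0
  have := congrArg (fun v : E 2 => v 1) h0
  simp [va, vb] at this
  norm_num at this

lemma seg_mem (a b : E 2) : segment ℝ a b ∈ K2 := by
  refine ⟨⟨a, left_mem_segment ℝ a b⟩, ?_, convex_segment a b⟩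
  rw [← convexHull_pair]
  exact (Set.toFinite _).isCompact_convexHull ℝ

theorem result :
    ∃ S : Symmetrization,
      -- monotonic
      (∀ K L : {K : Set (E 2) // K ∈ K2}, K.1 ⊆ L.1 → (S K).1 ⊆ (S L).1) ∧
      -- invariant on `o`-symmetric sets
      (∀ K : {K : Set (E 2) // K ∈ K2}, -K.1 = K.1 → (S K).1 = K.1) ∧
      -- `V₁`-preserving
      (∀ K : {K : Set (E 2) // K ∈ K2}, V1 (S K).1 = V1 K.1) ∧
      -- not canonical
      (∃ a b : E 2, a ≠ b ∧ ∃ K : {K : Set (E 2) // K ∈ K2}, K.1 = segment ℝ a b ∧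
        ∀ x y : E 2, (S K).1 ≠ segment ℝ x y) := by
  refine ⟨S, ?_, ?_, ?_, va, vb, va_ne_vb, ⟨segment ℝ va vb, seg_mem va vb⟩, rfl, ?_⟩
  · intro K L hKL
    exact dia_mono planeFnl ⟨K.2.1, K.2.2.1⟩ ⟨L.2.1, L.2.2.1⟩ hKL
  · intro K hK
    exact dia_of_symm planeFnl ⟨K.2.1, K.2.2.1⟩ K.2.2.2 hK
  · intro K
    have := L_dia planeFnl (K := K.1) ⟨K.2.1, K.2.2.1⟩
    unfold V1
    exact congrArg (fun t => (1 / 2 : ℝ) * t) this
  · intro x y he
    set K : Set (E 2) := segment ℝ va vb with hK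
    have hNC : NC K := ⟨(seg_mem va vb).1, (seg_mem va vb).2.1⟩
    have hta : va ∈ K := left_mem_segment ℝ va vb
    have htb : vb ∈ K := right_mem_segment ℝ va vb
    have ht : 0 < tK planeFnl K := tK_pos planeFnl hNC hta htb va_ne_vb
    set t := tK planeFnl K with htdef
    have he' : t • Mh (Ah K) = segment ℝ x y := he
    have key : ∀ v ∈ K, ∃ s : ℝ, (t / 2) • v = x + s • (y - x) := by
      intro v hv
      have : t • ((1 / 2 : ℝ) • v) ∈ segment ℝ x y := by
        rw [← he']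
        apply Set.smul_mem_smul_set
        unfold Mh
        refine ⟨(1 / 2 : ℝ) • v, Set.smul_mem_smul_set (subset_Ah K hv), 0, ?_, by simp⟩
        exact ⟨0, by simpa using zero_mem_Ah K, by simp⟩
      rw [segment_eq_image'] at this
      obtain ⟨s, -, hs⟩ := this
      refine ⟨s, ?_⟩
      simp only at hs
      rw [hs, smul_smul]
      congr 1
      ring
    have key0 : ∃ s : ℝ, (0 : E 2) = x + s • (y - x) := by
      have : (0 : E 2) ∈ segment ℝ x y := by
        rw [← he']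
        exact ⟨0, zero_mem_Mh (zero_mem_Ah K), by simp⟩
      rw [segment_eq_image'] at this
      obtain ⟨s, -, hs⟩ := this
      exact ⟨s, hs.symm⟩
    obtain ⟨s0, h0⟩ := key0
    obtain ⟨s1, h1⟩ := key va hta
    obtain ⟨s2, h2⟩ := key vb htb
    have e1 : (t / 2) • va = (s1 - s0) • (y - x) := by
      have hx : x = -(s0 • (y - x)) := eq_neg_of_add_eq_zero_left h0.symm
      rw [h1, sub_smul]
      nth_rewrite 1 [hx]
      abel
    have e2 : (t / 2) • vb = (s2 - s0) • (y - x) := by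
      have hx : x = -(s0 • (y - x)) := eq_neg_of_add_eq_zero_left h0.symm
      rw [h2, sub_smul]
      nth_rewrite 1 [hx]
      abel
    have a0 := congrArg (fun v : E 2 => v 0) e1
    have a1 := congrArg (fun v : E 2 => v 1) e1
    have b0 := congrArg (fun v : E 2 => v 0) e2
    have b1 := congrArg (fun v : E 2 => v 1) e2
    simp [va, vb] at a0 a1 b0 b1
    have c1 : (s1 - s0) * (y 0 - x 0) = (s1 - s0) * (y 1 - x 1) := by linarith
    have c2 : (s2 - s0) * (y 0 - x 0) = -((s2 - s0) * (y 1 - x 1)) := by linarith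
    have d1 : s1 - s0 ≠ 0 := by
      intro hz; rw [hz] at a0; linarith
    have d2 : s2 - s0 ≠ 0 := by
      intro hz; rw [hz] at b0; linarith
    have e3 : y 0 - x 0 = y 1 - x 1 := mul_left_cancel₀ d1 c1
    have e4 : y 0 - x 0 = -(y 1 - x 1) := mul_left_cancel₀ d2 (by linarith)
    have e5 : y 0 - x 0 = 0 := by linarith
    rw [e5, mul_zero] at a0
    linarith

end Pool.Agent.Results.MP_84aa88_gt.NotCanonical
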